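import Mathlib

/-!
# Fraïssé structures with rigid `k`-subsets admit structurally sharply `k`-transitive actions

The group is the free group on countably many generators.  We build the actions of the generators
as unions of finite partial isomorphisms, keeping the invariant that no nonempty reduced word fixes
`k` distinct points.  Two `k`-tuples `a`, `b` of the same type which are not yet connected by a word
are connected by a new generator, defined on `a` only: a closed path which uses it passes through
the tuples `a` and `b` in a fixed order, by rigidity.  The domains and ranges are extended by new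
points, which exist by strong amalgamation.
-/

set_option autoImplicit false

open FirstOrder FirstOrder.Language FirstOrder.Language.Structure

namespace Pool.Agent.Results.MP_301b8f_al.RigidSharp

universe u v w

/-! ### Definitions -/

section Defs

variable (L : FirstOrder.Language.{u, v}) (M : Type w) [L.Structure M]

/-- Every isomorphism between finite substructures extends to an automorphism. -/
def Ultrahomogeneous : Prop :=
  ∀ (A B : L.Substructure M), Finite A → Finite B → ∀ f : A ≃[L] B,
    ∃ g : M ≃[L] M, ∀ x : A, g x = (f x : M)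

/-- The class of the finite structures which embed in `M` has strong amalgamation. -/
def StrongAmalgamation : Prop :=
  ∀ (A B C : Type w) [L.Structure A] [L.Structure B] [L.Structure C] [Finite A] [Finite B]
    [Finite C], Nonempty (A ↪[L] M) → Nonempty (B ↪[L] M) → Nonempty (C ↪[L] M) →
    ∀ (f : A ↪[L] B) (g : A ↪[L] C),
      ∃ (D : Type w) (_ : L.Structure D) (_ : Finite D) (_ : Nonempty (D ↪[L] M))
        (f' : B ↪[L] D) (g' : C ↪[L] D),
        (∀ a, f' (f a) = g' (g a)) ∧ ∀ b c, f' b = g' c → ∃ a, f a = b ∧ g a = c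

/-- A Fraïssé structure: countably infinite, ultrahomogeneous, and its class of finite
substructures has strong amalgamation. -/
structure IsFraisse : Prop where
  countable : Countable M
  infinite : Infinite M
  ultra : Ultrahomogeneous L M
  amalg : StrongAmalgamation L M

/-- Every substructure of `M` with exactly `k` elements has trivial automorphism group. -/
def RigidSubsets (k : ℕ) : Prop :=
  ∀ S : L.Substructure M, Nat.card S = k → ∀ f : S ≃[L] S, ∀ x, f x = x

variable {M} in
/-- The tuples `a` and `b` satisfy the same relations; for injective tuples this says that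
`a i ↦ b i` is an isomorphism of the induced substructures. -/
def SameType {ι : Type*} (a b : ι → M) : Prop :=
  ∀ (n : ℕ) (R : L.Relations n) (x : Fin n → ι), RelMap R (a ∘ x) ↔ RelMap R (b ∘ x)

/-- Some group has a structurally sharply `k`-transitive action on `M` by automorphisms. -/
def AdmitsSharp (k : ℕ) : Prop :=
  ∃ (G : Type) (_ : Group G) (_ : MulAction G M),
    (∀ (g : G) (n : ℕ) (R : L.Relations n) (x : Fin n → M),
      RelMap R (fun i => g • x i) ↔ RelMap R x) ∧
    ∀ a b : Fin k → M, Function.Injective a → Function.Injective b → SameType L a b →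
      ∃! g : G, ∀ i, g • a i = b i

end Defs

/-! ### Consequences of the hypotheses in terms of relations -/

section Model

variable {L : FirstOrder.Language.{u, v}} {M : Type w} [L.Structure M]

variable (L) in
/-- The relation `r` is compatible with the structure. -/
def Pres (r : M → M → Prop) : Prop :=
  ∀ (n : ℕ) (R : L.Relations n) (x y : Fin n → M), (∀ i, r (x i) (y i)) →
    (RelMap R x ↔ RelMap R y)

/-- The substructure with a given carrier. -/
def sub [L.IsRelational] (S : Set M) : L.Substructure M where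
  carrier := S
  fun_mem := fun f => isEmptyElim f

lemma exists_auto [L.IsRelational] (hU : Ultrahomogeneous L M) {r : M → M → Prop}
    (hfin : {p : M × M | r p.1 p.2}.Finite) (hfn : ∀ x y y', r x y → r x y' → y = y')
    (hinj : ∀ x x' y, r x y → r x' y → x = x') (hP : Pres L r) :
    ∃ g : M ≃[L] M, ∀ x y, r x y → g x = y := by
  set A : L.Substructure M := sub {x | ∃ y, r x y} with hA
  set B : L.Substructure M := sub {y | ∃ x, r x y} with hB
  have fA : Finite A := by
    have : ({x | ∃ y, r x y} : Set M) = Prod.fst '' {p : M × M | r p.1 p.2} := by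
      ext x; simp
    have h2 : ({x | ∃ y, r x y} : Set M).Finite := by rw [this]; exact hfin.image _
    exact h2.to_subtype
  have fB : Finite B := by
    have : ({y | ∃ x, r x y} : Set M) = Prod.snd '' {p : M × M | r p.1 p.2} := by
      ext x; simp
    have h2 : ({y | ∃ x, r x y} : Set M).Finite := by rw [this]; exact hfin.image _
    exact h2.to_subtype
  have hAx : ∀ x : A, ∃ y, r x y := fun x => x.2
  have hBx : ∀ y : B, ∃ x, r x y := fun y => y.2
  choose F hF using hAx
  choose G hG using hBx
  let f : A ≃[L] B :=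
    { toFun := fun x => ⟨F x, x.1, hF x⟩
      invFun := fun y => ⟨G y, y.1, hG y⟩
      left_inv := fun x => Subtype.ext (hinj _ _ _ (hG _) (hF x))
      right_inv := fun y => Subtype.ext (hfn _ _ _ (hF _) (hG y))
      map_fun' := fun f => isEmptyElim f
      map_rel' := fun R x => (hP _ R _ _ fun i => hF (x i)).symm }
  obtain ⟨g, hg⟩ := hU A B fA fB f
  exact ⟨g, fun x y hxy => (hg ⟨x, y, hxy⟩).trans (hfn _ _ _ (hF ⟨x, y, hxy⟩) hxy)⟩

/-- Extension of a finite partial isomorphism by a new point. -/
lemma exists_ext [L.IsRelational] (hU : Ultrahomogeneous L M) (hSA : StrongAmalgamation L M)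
    {r : M → M → Prop} (hfin : {p : M × M | r p.1 p.2}.Finite)
    (hfn : ∀ x y y', r x y → r x y' → y = y') (hinj : ∀ x x' y, r x y → r x' y → x = x')
    (hP : Pres L r) {c : M} (hc : ∀ y, ¬ r c y) {X : Set M} (hX : X.Finite) :
    ∃ d, d ∉ X ∧ Pres L (fun x y => r x y ∨ (x = c ∧ y = d)) := by
  obtain ⟨g₀, hg₀⟩ := exists_auto hU hfin hfn hinj hP
  set ran : Set M := {y | ∃ x, r x y} with hran
  have hranfin : ran.Finite := by
    have : ran = Prod.snd '' {p : M × M | r p.1 p.2} := by
      ext x; simp [hran]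
    rw [this]; exact hfin.image _
  set A : L.Substructure M := sub ran with hA
  set B : L.Substructure M := sub (ran ∪ {g₀ c}) with hB
  set C : L.Substructure M := sub (ran ∪ X) with hC
  have fA : Finite A := hranfin.to_subtype
  have fB : Finite B := (hranfin.union (Set.finite_singleton _)).to_subtype
  have fC : Finite C := (hranfin.union hX).to_subtype
  have hAB : A ≤ B := fun x hx => Or.inl hx
  have hAC : A ≤ C := fun x hx => Or.inl hx
  obtain ⟨D, _, fD, ⟨e⟩, f', g', h1, h2⟩ := hSA A B C ⟨A.subtype⟩ ⟨B.subtype⟩ ⟨C.subtype⟩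
    (Substructure.inclusion hAB) (Substructure.inclusion hAC)
  -- move the copy of `C` to `C`
  obtain ⟨h, hh⟩ := exists_auto (L := L) (M := M) hU
    (r := fun x y => ∃ z : C, x = e (g' z) ∧ y = z) (by
      have : {p : M × M | ∃ z : C, p.1 = e (g' z) ∧ p.2 = z} =
          Set.range (fun z : C => (e (g' z), (z : M))) := by
        ext ⟨x, y⟩
        simp only [Set.mem_ofPred_eq, Set.mem_range, Prod.mk.injEq]
        exact ⟨fun ⟨z, h, h'⟩ => ⟨z, h.symm, h'.symm⟩, fun ⟨z, h, h'⟩ => ⟨z, h.symm, h'.symm⟩⟩
      rw [this]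
      exact Set.finite_range _)
    (by
      rintro x y y' ⟨z, rfl, rfl⟩ ⟨z', hz', rfl⟩
      rw [g'.injective (e.injective hz')])
    (by
      rintro x x' y ⟨z, rfl, hz⟩ ⟨z', rfl, hz'⟩
      rw [Subtype.ext (hz.symm.trans hz') ])
    (by
      intro n R x y hxy
      choose z hz hz' using hxy
      have e1 : x = (fun i => e (g' (z i))) := funext hz
      have e2 : y = (fun i => (z i : M)) := funext hz'
      rw [e1, e2]
      have e3 : (fun i => e (g' (z i))) = e ∘ (g' ∘ z) := rfl
      rw [e3, e.map_rel, g'.map_rel]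
      rfl)
  have hh' : ∀ z : C, h (e (g' z)) = z := fun z => hh _ _ ⟨z, rfl, rfl⟩
  set d0 : B := ⟨g₀ c, Or.inr rfl⟩ with hd0
  have hA' : ∀ y (hy : y ∈ ran), h (e (f' ⟨y, Or.inl hy⟩)) = y := by
    intro y hy
    have := h1 ⟨y, hy⟩
    have e1 : Substructure.inclusion hAB ⟨y, hy⟩ = (⟨y, Or.inl hy⟩ : B) := rfl
    have e2 : Substructure.inclusion hAC ⟨y, hy⟩ = (⟨y, Or.inl hy⟩ : C) := rfl
    rw [e1, e2] at this
    rw [this, hh']
  refine ⟨h (e (f' d0)), ?_, ?_⟩
  · intro hd
    have e1 := hh' ⟨_, Or.inr hd⟩
    have e2 : g' ⟨_, Or.inr hd⟩ = f' d0 := e.injective (h.injective e1)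
    obtain ⟨a, ha, -⟩ := h2 _ _ e2.symm
    have e3 : (a : M) = g₀ c := congrArg Subtype.val ha
    obtain ⟨x, hx⟩ := a.2
    have e4 := hg₀ _ _ hx
    rw [e3] at e4
    rw [e3, ← g₀.injective e4, ] at hx
    exact hc _ (g₀.injective e4 ▸ hx)
  · intro n R x y hxy
    have hz : ∀ i, g₀ (x i) ∈ B := by
      intro i
      rcases hxy i with hi | hi
      · exact Or.inl ⟨x i, by rw [hg₀ _ _ hi]; exact hi⟩
      · rw [hi.1]; exact Or.inr rfl
    have e1 : y = fun i => h (e (f' ⟨g₀ (x i), hz i⟩)) := by
      funext i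
      rcases hxy i with hi | hi
      · have e2 : g₀ (x i) = y i := hg₀ _ _ hi
        have e3 := hA' (y i) ⟨x i, hi⟩
        rw [← e3]
        congr 3
        exact Subtype.ext e2.symm
      · rw [hi.2]
        congr 3
        exact Subtype.ext (congrArg g₀ hi.1.symm)
    rw [e1]
    have e4 : (fun i => h (e (f' ⟨g₀ (x i), hz i⟩))) =
      h ∘ (e ∘ (f' ∘ fun i => ⟨g₀ (x i), hz i⟩)) := rfl
    rw [e4, h.map_rel, e.map_rel, f'.map_rel]
    show _ ↔ RelMap R (g₀ ∘ x)
    rw [g₀.map_rel]

lemma rigid' [L.IsRelational] {k : ℕ} (hR : RigidSubsets L M k) {x y : Fin k → M}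
    (hx : Function.Injective x) (hy : Function.Injective y) (hxy : Set.range x = Set.range y)
    (h : SameType L x y) : x = y := by
  set S : L.Substructure M := sub (Set.range x) with hS
  let ex : Fin k ≃ S := Equiv.ofInjective x hx
  let ey : Fin k ≃ S := (Equiv.ofInjective y hy).trans (Equiv.setCongr hxy.symm)
  have hcard : Nat.card S = k := by
    rw [← Nat.card_congr ex, Nat.card_fin]
  have hex : ∀ i, ((ex i : S) : M) = x i := fun i => rfl
  have hey : ∀ i, ((ey i : S) : M) = y i := fun i => rfl
  let f : S ≃[L] S :=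
    { toFun := fun s => ey (ex.symm s)
      invFun := fun s => ex (ey.symm s)
      left_inv := fun s => by simp
      right_inv := fun s => by simp
      map_fun' := fun f => isEmptyElim f
      map_rel' := by
        intro n R s
        have h1 := h n R (fun i => ex.symm (s i))
        show RelMap R (fun i => ((ey (ex.symm (s i)) : S) : M)) ↔ RelMap R (fun i => ((s i : S) : M))
        have e1 : (fun i => ((ey (ex.symm (s i)) : S) : M)) = y ∘ (fun i => ex.symm (s i)) := rfl
        have e2 : (fun i => ((s i : S) : M)) = x ∘ (fun i => ex.symm (s i)) := by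
          funext i
          show _ = x (ex.symm (s i))
          rw [← hex, Equiv.apply_symm_apply]
        rw [e1, e2]
        exact h1.symm }
  funext i
  have h2 := hR S hcard f (ex i)
  have h3 : ((f (ex i) : S) : M) = y i := by
    show ((ey (ex.symm (ex i)) : S) : M) = y i
    rw [Equiv.symm_apply_apply, hey]
  rw [← h3, h2, hex]

end Model

/-! ### Words -/

section Words

variable {M : Type w}

/-- The inverse letter. -/
def inv (l : ℕ × Bool) : ℕ × Bool := (l.1, !l.2)

@[simp] lemma inv_inv (l : ℕ × Bool) : inv (inv l) = l := by simp [inv]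

@[simp] lemma inv_fst (l : ℕ × Bool) : (inv l).1 = l.1 := rfl

lemma inv_ne (l : ℕ × Bool) : inv l ≠ l := by
  intro h
  have := congrArg Prod.snd h
  simp [inv] at this

lemma eq_or_inv {l m : ℕ × Bool} (h : m.1 = l.1) : m = l ∨ m = inv l := by
  rcases l with ⟨l, bl⟩
  rcases m with ⟨m, bm⟩
  simp only at h
  subst h
  cases bl <;> cases bm <;> simp [inv]

lemma not_reduced (l : ℕ × Bool) (t : List (ℕ × Bool)) : ¬ FreeGroup.IsReduced (inv l :: l :: t) := by
  intro h
  rw [FreeGroup.isReduced_cons_cons] at h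
  have := h.1 rfl
  simp [inv] at this

lemma not_reduced' (l : ℕ × Bool) (t : List (ℕ × Bool)) : ¬ FreeGroup.IsReduced (l :: inv l :: t) := by
  have := not_reduced (inv l) t
  rwa [inv_inv] at this

lemma red_mid {a b c : List (ℕ × Bool)} (h : FreeGroup.IsReduced (a ++ b ++ c)) :
    FreeGroup.IsReduced b :=
  List.IsChain.right_of_append (List.IsChain.left_of_append h)

/-- The path of a word; the last letter is applied first. -/
def run (R : ℕ × Bool → M → M → Prop) : List (ℕ × Bool) → M → M → Prop
  | [], x, y => x = y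
  | l :: t, x, z => ∃ y, run R t x y ∧ R l y z

variable {R R' : ℕ × Bool → M → M → Prop}

lemma run_append (a b : List (ℕ × Bool)) (x z : M) :
    run R (a ++ b) x z ↔ ∃ y, run R b x y ∧ run R a y z := by
  induction a generalizing z with
  | nil => simp [run]
  | cons l t ih =>
    simp only [List.cons_append, run]
    constructor
    · rintro ⟨y, h1, h2⟩
      obtain ⟨y', h3, h4⟩ := (ih y).mp h1
      exact ⟨y', h3, y, h4, h2⟩
    · rintro ⟨y', h3, y, h4, h2⟩
      exact ⟨y, (ih y).mpr ⟨y', h3, h4⟩, h2⟩

lemma run_single (l : ℕ × Bool) (x z : M) : run R [l] x z ↔ R l x z := by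
  simp [run]

lemma run_mono {t : List (ℕ × Bool)} (h : ∀ l ∈ t, ∀ x y, R l x y → R' l x y) {x y : M}
    (hr : run R t x y) : run R' t x y := by
  induction t generalizing y with
  | nil => exact hr
  | cons l t ih =>
    obtain ⟨z, h1, h2⟩ := hr
    exact ⟨z, ih (fun m hm => h m (List.mem_cons_of_mem _ hm)) h1, h l (by simp) _ _ h2⟩

lemma run_fn (hfn : ∀ l x y y', R l x y → R l x y' → y = y') {t : List (ℕ × Bool)} {x y y' : M}
    (h : run R t x y) (h' : run R t x y') : y = y' := by
  induction t generalizing y y' with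
  | nil => exact h.symm.trans h'
  | cons l t ih =>
    obtain ⟨z, h1, h2⟩ := h
    obtain ⟨z', h3, h4⟩ := h'
    rw [ih h1 h3] at h2
    exact hfn _ _ _ _ h2 h4

/-- The inverse word. -/
def winv (t : List (ℕ × Bool)) : List (ℕ × Bool) := (t.map inv).reverse

lemma run_winv (hs : ∀ l x y, R l x y → R (inv l) y x) {t : List (ℕ × Bool)} {x y : M}
    (h : run R t x y) : run R (winv t) y x := by
  induction t generalizing y with
  | nil => exact h.symm
  | cons l t ih =>
    obtain ⟨z, h1, h2⟩ := h
    have : winv (l :: t) = winv t ++ [inv l] := by simp [winv]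
    rw [this, run_append]
    exact ⟨z, (run_single _ _ _).mpr (hs _ _ _ h2), ih h1⟩

lemma run_inj (hs : ∀ l x y, R l x y → R (inv l) y x)
    (hfn : ∀ l x y y', R l x y → R l x y' → y = y') {t : List (ℕ × Bool)} {x x' y : M}
    (h : run R t x y) (h' : run R t x' y) : x = x' :=
  run_fn hfn (run_winv hs h) (run_winv hs h')

/-- Decomposition at the last letter with a given generator. -/
lemma exists_last (s : ℕ) (t : List (ℕ × Bool)) (h : ∃ l ∈ t, l.1 = s) :
    ∃ a m b, t = a ++ [m] ++ b ∧ m.1 = s ∧ ∀ l ∈ b, l.1 ≠ s := by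
  induction t with
  | nil => simp at h
  | cons x t ih =>
    by_cases h' : ∃ l ∈ t, l.1 = s
    · obtain ⟨a, m, b, rfl, h1, h2⟩ := ih h'
      exact ⟨x :: a, m, b, by simp, h1, h2⟩
    · push Not at h'
      obtain ⟨l, hl, hls⟩ := h
      rcases List.mem_cons.mp hl with rfl | hl
      · exact ⟨[], l, t, by simp, hls, h'⟩
      · exact absurd hls (h' l hl)

/-- No nonempty reduced word fixes `k` distinct points. -/
def Star (k : ℕ) (R : ℕ × Bool → M → M → Prop) : Prop :=
  ∀ t : List (ℕ × Bool), FreeGroup.IsReduced t → t ≠ [] → ∀ c : Fin k → M,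
    Function.Injective c → ¬ ∀ i, run R t (c i) (c i)

/-- Add the edge `l : c → d`. -/
def addEdge (R : ℕ × Bool → M → M → Prop) (l : ℕ × Bool) (c d : M) : ℕ × Bool → M → M → Prop :=
  fun m x y => R m x y ∨ (m = l ∧ x = c ∧ y = d) ∨ (m = inv l ∧ x = d ∧ y = c)

/-- Add the edges `l : a i → b i`. -/
def addGen {k : ℕ} (R : ℕ × Bool → M → M → Prop) (l : ℕ × Bool) (a b : Fin k → M) :
    ℕ × Bool → M → M → Prop :=
  fun m x y => R m x y ∨ (m = l ∧ ∃ i, x = a i ∧ y = b i) ∨ (m = inv l ∧ ∃ i, x = b i ∧ y = a i)

lemma addEdge_sym (hs : ∀ l x y, R l x y → R (inv l) y x) (l : ℕ × Bool) (c d : M) :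
    ∀ m x y, addEdge R l c d m x y → addEdge R l c d (inv m) y x := by
  rintro m x y (h | ⟨rfl, h1, h2⟩ | ⟨rfl, h1, h2⟩)
  · exact Or.inl (hs _ _ _ h)
  · exact Or.inr (Or.inr ⟨rfl, h2, h1⟩)
  · exact Or.inr (Or.inl ⟨inv_inv _, h2, h1⟩)

lemma addEdge_fn (hfn : ∀ l x y y', R l x y → R l x y' → y = y') {l : ℕ × Bool} {c d : M}
    (hd : ∀ m x, ¬ R m d x) (hc : ∀ x, ¬ R l c x) :
    ∀ m x y y', addEdge R l c d m x y → addEdge R l c d m x y' → y = y' := by
  rintro m x y y' (h | ⟨rfl, h1, h2⟩ | ⟨rfl, h1, h2⟩) (h' | ⟨h0', h1', h2'⟩ | ⟨h0', h1', h2'⟩)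
  · exact hfn _ _ _ _ h h'
  · subst h0' h1'; exact absurd h (hc _)
  · subst h1'; exact absurd h (hd _ _)
  · subst h1; exact absurd h' (hc _)
  · rw [h2, h2']
  · exact absurd h0'.symm (inv_ne _)
  · subst h1; exact absurd h' (hd _ _)
  · exact absurd h0' (inv_ne _)
  · rw [h2, h2']

/-- Paths between old points use old edges only. -/
lemma run_old {l : ℕ × Bool} {c d : M} (hd : ∀ m x, ¬ R m d x) (hd' : ∀ m x, ¬ R m x d)
    (hcd : c ≠ d) (t : List (ℕ × Bool)) (ht : FreeGroup.IsReduced t) {x y : M} (hx : x ≠ d)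
    (hy : y ≠ d) (h : run (addEdge R l c d) t x y) : run R t x y := by
  induction t generalizing y with
  | nil => exact h
  | cons m t ih =>
    obtain ⟨z, h1, h2⟩ := h
    have ht' : FreeGroup.IsReduced t := red_mid (a := [m]) (c := []) (by simpa using ht)
    by_cases hz : z = d
    · exfalso
      subst hz
      have hm : m = inv l := by
        rcases h2 with h2 | ⟨_, h3, _⟩ | ⟨h3, _, _⟩
        · exact absurd h2 (hd _ _)
        · exact absurd h3.symm hcd
        · exact h3
      cases t with
      | nil => exact hx h1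
      | cons m' t =>
        obtain ⟨z', -, h4⟩ := h1
        have hm' : m' = l := by
          rcases h4 with h4 | ⟨h3, _, _⟩ | ⟨_, _, h3⟩
          · exact absurd h4 (hd' _ _)
          · exact h3
          · exact absurd h3.symm hcd
        rw [hm, hm'] at ht
        exact not_reduced _ _ ht
    · refine ⟨z, ih ht' hz h1, ?_⟩
      rcases h2 with h2 | ⟨_, _, h3⟩ | ⟨_, h3, _⟩
      · exact h2
      · exact absurd h3 hy
      · exact absurd h3 hz

lemma star_addEdge {k : ℕ} (hs : ∀ l x y, R l x y → R (inv l) y x)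
    (hfn : ∀ l x y y', R l x y → R l x y' → y = y') (hstar : Star k R) {l : ℕ × Bool} {c d : M}
    (hd : ∀ m x, ¬ R m d x) (hc : ∀ x, ¬ R l c x) (hcd : c ≠ d) :
    Star k (addEdge R l c d) := by
  have hd' : ∀ m x, ¬ R m x d := fun m x h => hd _ _ (hs _ _ _ h)
  have hs' := addEdge_sym hs l c d
  have hfn' := addEdge_fn hfn hd hc
  have key : ∀ n : ℕ, ∀ t : List (ℕ × Bool), t.length ≤ n → FreeGroup.IsReduced t → t ≠ [] →
      ∀ p : Fin k → M, Function.Injective p → ¬ ∀ i, run (addEdge R l c d) t (p i) (p i) := by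
    intro n
    induction n with
    | zero =>
      intro t ht _ hne
      exact absurd (List.length_eq_zero_iff.mp (Nat.le_zero.mp ht)) hne
    | succ n ih =>
      intro t ht hred hne p hp hrun
      by_cases hall : ∀ i, p i ≠ d
      · exact hstar t hred hne p hp fun i => run_old hd hd' hcd t hred (hall i) (hall i) (hrun i)
      · push Not at hall
        obtain ⟨i₀, hi₀⟩ := hall
        -- decompose the word
        obtain ⟨m, t', rfl⟩ := List.exists_cons_of_ne_nil hne
        rcases List.eq_nil_or_concat t' with rfl | ⟨t'', m', rfl⟩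
        · have := (run_single _ _ _).mp (hrun i₀)
          rw [hi₀] at this
          rcases this with h | ⟨_, h, _⟩ | ⟨_, _, h⟩
          · exact hd _ _ h
          · exact hcd h.symm
          · exact hcd h.symm
        · rw [List.concat_eq_append] at *
          have hsplit : ∀ i, ∃ e f, addEdge R l c d m' (p i) e ∧ run (addEdge R l c d) t'' e f ∧
              addEdge R l c d m f (p i) := by
            intro i
            obtain ⟨f, h1, h2⟩ := hrun i
            obtain ⟨e, h3, h4⟩ := (run_append _ _ _ _).mp h1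
            exact ⟨e, f, (run_single _ _ _).mp h3, h4, h2⟩
          choose e f he hef hf using hsplit
          have hm : m = l := by
            have := hf i₀
            rw [hi₀] at this
            rcases this with h | ⟨h, _, _⟩ | ⟨_, _, h⟩
            · exact absurd h (hd' _ _)
            · exact h
            · exact absurd h.symm hcd
          have hm' : m' = inv l := by
            have := he i₀
            rw [hi₀] at this
            rcases this with h | ⟨_, h, _⟩ | ⟨h, _, _⟩
            · exact absurd h (hd _ _)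
            · exact absurd h.symm hcd
            · exact h
          subst hm hm'
          have hfe : ∀ i, f i = e i := by
            intro i
            have h1 := hs' _ _ _ (hf i)
            exact hfn' _ _ _ _ h1 (he i)
          have hne' : t'' ≠ [] := by
            rintro rfl
            exact not_reduced' _ _ hred
          refine ih t'' ?_ (red_mid (a := [m]) (c := [inv m]) (by simpa using hred)) hne' e ?_ fun i => ?_
          · simp at ht; omega
          · intro i j hij
            have h1 := hs' _ _ _ (he i)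
            have h2 := hs' _ _ _ (he j)
            rw [hij] at h1
            exact hp (hfn' _ _ _ _ h1 h2)
          · have := hef i
            rw [hfe i] at this
            exact this
  exact fun t => key t.length t le_rfl

end Words

/-! ### States -/

section States

variable {L : FirstOrder.Language.{u, v}} {M : Type w} [L.Structure M]

variable (L) in
/-- The finite stages of the construction. -/
structure Good (k : ℕ) (R : ℕ × Bool → M → M → Prop) : Prop where
  sym : ∀ l x y, R l x y → R (inv l) y x
  fn : ∀ l x y y', R l x y → R l x y' → y = y'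
  fin : {p : (ℕ × Bool) × M × M | R p.1 p.2.1 p.2.2}.Finite
  pres : ∀ l, Pres L (R l)
  star : Star k R

lemma run_pres {R : ℕ × Bool → M → M → Prop} (hp : ∀ l, Pres L (R l)) (t : List (ℕ × Bool)) :
    Pres L (run R t) := by
  induction t with
  | nil =>
    intro n r x y h
    rw [show x = y from funext h]
  | cons l t ih =>
    intro n r x y h
    choose z h1 h2 using h
    exact (ih n r x z h1).trans (hp l n r z y h2)

lemma sameType_of_run {R : ℕ × Bool → M → M → Prop} (hp : ∀ l, Pres L (R l))
    {t : List (ℕ × Bool)} {ι : Type*} {x y : ι → M} (h : ∀ i, run R t (x i) (y i)) :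
    SameType L x y := fun n r v => run_pres hp t n r _ _ fun i => h (v i)

lemma sameType_trans {ι : Type*} {x y z : ι → M} (h : SameType L x y) (h' : SameType L y z) :
    SameType L x z := fun n r v => (h n r v).trans (h' n r v)

/-- Extend the domain of the letter `l` by `c`. -/
lemma exists_extend [L.IsRelational] (hU : Ultrahomogeneous L M) (hSA : StrongAmalgamation L M)
    {k : ℕ} {R : ℕ × Bool → M → M → Prop} (hR : Good L k R) (l : ℕ × Bool) (c : M) :
    ∃ R' : ℕ × Bool → M → M → Prop, Good L k R' ∧ (∀ m x y, R m x y → R' m x y) ∧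
      ∃ y, R' l c y := by
  by_cases hc : ∃ y, R l c y
  · exact ⟨R, hR, fun _ _ _ h => h, hc⟩
  push Not at hc
  -- the old points
  set X : Set M := {c} ∪ (fun p : (ℕ × Bool) × M × M => p.2.1) ''
    {p : (ℕ × Bool) × M × M | R p.1 p.2.1 p.2.2} with hX
  have hXfin : X.Finite := (Set.finite_singleton c).union (hR.fin.image _)
  have hfin : {p : M × M | R l p.1 p.2}.Finite := by
    refine (hR.fin.image (fun p : (ℕ × Bool) × M × M => p.2)).subset ?_
    rintro p hp
    exact ⟨(l, p), hp, rfl⟩
  obtain ⟨d, hdX, hP⟩ := exists_ext hU hSA hfin (hR.fn l)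
    (fun x x' y h h' => hR.fn _ _ _ _ (hR.sym _ _ _ h) (hR.sym _ _ _ h')) (hR.pres l) hc hXfin
  have hcd : c ≠ d := fun h => hdX (Or.inl h.symm)
  have hd : ∀ m x, ¬ R m d x := fun m x h => hdX (Or.inr ⟨(m, d, x), h, rfl⟩)
  refine ⟨addEdge R l c d, ⟨addEdge_sym hR.sym l c d, addEdge_fn hR.fn hd hc, ?_, ?_,
    star_addEdge hR.sym hR.fn hR.star hd hc hcd⟩, fun m x y h => Or.inl h,
    d, Or.inr (Or.inl ⟨rfl, rfl, rfl⟩)⟩
  · refine ((hR.fin.union (Set.finite_singleton (l, c, d))).union
      (Set.finite_singleton (inv l, d, c))).subset ?_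
    rintro ⟨m, x, y⟩ (h | ⟨rfl, rfl, rfl⟩ | ⟨rfl, rfl, rfl⟩)
    · exact Or.inl (Or.inl h)
    · exact Or.inl (Or.inr rfl)
    · exact Or.inr rfl
  · intro m n r x y hxy
    by_cases hm : m = l
    · subst hm
      refine hP n r x y fun i => ?_
      rcases hxy i with h | ⟨_, h⟩ | ⟨h, _⟩
      · exact Or.inl h
      · exact Or.inr h
      · exact absurd h.symm (inv_ne _)
    · by_cases hm' : m = inv l
      · subst hm'
        refine (hP n r y x fun i => ?_).symm
        rcases hxy i with h | ⟨h, _⟩ | ⟨_, h⟩
        · left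
          have := hR.sym _ _ _ h
          rwa [inv_inv] at this
        · exact absurd h hm
        · exact Or.inr ⟨h.2, h.1⟩
      · refine hR.pres m n r x y fun i => ?_
        rcases hxy i with h | ⟨h, _⟩ | ⟨h, _⟩
        · exact h
        · exact absurd h hm
        · exact absurd h hm'

/-- The key step: a closed path whose first new letter is `l`. -/
lemma key_step [L.IsRelational] {k : ℕ} (hrig : RigidSubsets L M k)
    {R : ℕ × Bool → M → M → Prop} (hR : Good L k R) {l : ℕ × Bool}
    (hl : ∀ m, m.1 = l.1 → ∀ x y, ¬ R m x y) {a b : Fin k → M}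
    (hb : Function.Injective b) (hab : SameType L a b)
    (hno : ∀ t, ¬ ∀ i, run R t (b i) (a i)) {s t : List (ℕ × Bool)}
    (ht : ∀ m ∈ t, m.1 ≠ l.1) (hred : FreeGroup.IsReduced (s ++ [l] ++ t)) {c : Fin k → M}
    (hc : Function.Injective c) (hrun : ∀ i, run (addGen R l a b) (s ++ [l] ++ t) (c i) (c i)) :
    False := by
  -- paths without new letters
  have hold : ∀ t : List (ℕ × Bool), (∀ m ∈ t, m.1 ≠ l.1) → ∀ x y,
      run (addGen R l a b) t x y → run R t x y := by
    intro t ht x y h
    refine run_mono ?_ h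
    rintro m hm x y (h | ⟨h, _⟩ | ⟨h, _⟩)
    · exact h
    · exact absurd (congrArg Prod.fst h) (ht m hm)
    · exact absurd (congrArg Prod.fst h) (ht m hm)
  have hsplit : ∀ i, ∃ p q, run R t (c i) p ∧ (∃ j, p = a j ∧ q = b j) ∧
      run (addGen R l a b) s q (c i) := by
    intro i
    obtain ⟨p, h1, h2⟩ := (run_append _ _ _ _).mp (hrun i)
    obtain ⟨q, h3, h4⟩ := (run_append _ _ _ _).mp h2
    refine ⟨p, q, hold t ht _ _ h1, ?_, h4⟩
    rcases (run_single _ _ _).mp h3 with h | ⟨_, h⟩ | ⟨h, _⟩
    · exact absurd h (hl l rfl _ _)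
    · exact h
    · exact absurd h.symm (inv_ne _)
  choose p q h1 h2 h3 using hsplit
  choose π hπp hπq using h2
  have hpinj : Function.Injective p := by
    intro i j hij
    have e1 := h1 i
    rw [hij] at e1
    exact hc (run_inj hR.sym hR.fn e1 (h1 j))
  have hπinj : Function.Injective π := by
    intro i j hij
    apply hpinj
    rw [hπp, hπp, hij]
  have hπsurj : Function.Surjective π := Finite.surjective_of_injective hπinj
  have hqinj : Function.Injective q := by
    intro i j hij
    rw [hπq, hπq] at hij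
    exact hπinj (hb hij)
  have hpq : SameType L p q := by
    intro n r x
    have e1 : p ∘ x = a ∘ (π ∘ x) := by funext i; exact hπp _
    have e2 : q ∘ x = b ∘ (π ∘ x) := by funext i; exact hπq _
    rw [e1, e2]
    exact hab n r _
  have hrange : ∀ (z : Fin k → M) (ρ : Fin k → Fin k), Function.Injective ρ →
      Set.range (z ∘ ρ) = Set.range z := by
    intro z ρ hρ
    exact (Finite.surjective_of_injective hρ).range_comp z
  by_cases hs : ∃ m ∈ s, m.1 = l.1
  · obtain ⟨s', m, t', rfl, hm, ht'⟩ := exists_last l.1 s hs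
    have hsplit : ∀ i, ∃ p', run R t' (q i) p' ∧ ∃ z, addGen R l a b m p' z := by
      intro i
      obtain ⟨p', h4, h5⟩ := (run_append _ _ _ _).mp (h3 i)
      obtain ⟨z, h6, h7⟩ := (run_append _ _ _ _).mp h5
      exact ⟨p', hold t' ht' _ _ h4, z, (run_single _ _ _).mp h6⟩
    choose p' h4 z h5 using hsplit
    have hp'inj : Function.Injective p' := by
      intro i j hij
      have e1 := h4 i
      rw [hij] at e1
      exact hqinj (run_inj hR.sym hR.fn e1 (h4 j))
    rcases eq_or_inv hm with rfl | rfl
    · -- the word between two letters `l` maps `b` to `a`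
      have h6 : ∀ i, ∃ j, p' i = a j := by
        intro i
        rcases h5 i with h | ⟨_, j, h, _⟩ | ⟨h, _⟩
        · exact absurd h (hl m rfl _ _)
        · exact ⟨j, h⟩
        · exact absurd h.symm (inv_ne _)
      choose π' hπ' using h6
      have hπ'inj : Function.Injective π' := by
        intro i j hij
        apply hp'inj
        rw [hπ', hπ', hij]
      have e1 : p = a ∘ π := funext hπp
      have e2 : p' = a ∘ π' := funext hπ'
      have hpp' : p = p' := by
        refine rigid' hrig hpinj hp'inj ?_ (sameType_trans hpq (sameType_of_run hR.pres h4))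
        rw [e1, e2, hrange a π hπinj, hrange a π' hπ'inj]
      refine hno t' fun j => ?_
      obtain ⟨i, rfl⟩ := hπsurj j
      have := h4 i
      rw [← hpp', hπp, hπq] at this
      exact this
    · -- the word between `l` and its inverse fixes `b`
      have h6 : ∀ i, ∃ j, p' i = b j := by
        intro i
        rcases h5 i with h | ⟨h, _⟩ | ⟨_, j, h, _⟩
        · exact absurd h (hl (inv l) rfl _ _)
        · exact absurd h (inv_ne _)
        · exact ⟨j, h⟩
      choose π' hπ' using h6
      have hπ'inj : Function.Injective π' := by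
        intro i j hij
        apply hp'inj
        rw [hπ', hπ', hij]
      have e1 : q = b ∘ π := funext hπq
      have e2 : p' = b ∘ π' := funext hπ'
      have hqp' : q = p' := by
        refine rigid' hrig hqinj hp'inj ?_ (sameType_of_run hR.pres h4)
        rw [e1, e2, hrange b π hπinj, hrange b π' hπ'inj]
      have hne : t' ≠ [] := by
        rintro rfl
        refine not_reduced l t (red_mid (a := s') (c := []) (by simpa using hred))
      refine hR.star t' (red_mid (a := s' ++ [inv l]) (c := [l] ++ t) (by simpa using hred)) hne q hqinj fun i => ?_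
      have := h4 i
      rw [← hqp'] at this
      exact this
  · push Not at hs
    refine hno (t ++ s) fun j => ?_
    obtain ⟨i, rfl⟩ := hπsurj j
    rw [run_append, ← hπp, ← hπq]
    exact ⟨c i, hold s hs _ _ (h3 i), h1 i⟩

lemma addGen_symm {k : ℕ} (R : ℕ × Bool → M → M → Prop) (l : ℕ × Bool) (a b : Fin k → M) :
    addGen R (inv l) b a = addGen R l a b := by
  funext m x y
  simp only [addGen, inv_inv, eq_iff_iff]
  constructor
  · rintro (h | h | h)
    · exact Or.inl h
    · exact Or.inr (Or.inr h)
    · exact Or.inr (Or.inl h)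
  · rintro (h | h | h)
    · exact Or.inl h
    · exact Or.inr (Or.inr h)
    · exact Or.inr (Or.inl h)

/-- Connect two tuples of the same type. -/
lemma exists_connect [L.IsRelational] {k : ℕ} (hrig : RigidSubsets L M k)
    {R : ℕ × Bool → M → M → Prop} (hR : Good L k R) {a b : Fin k → M}
    (ha : Function.Injective a) (hb : Function.Injective b) (hab : SameType L a b) :
    ∃ R' : ℕ × Bool → M → M → Prop, Good L k R' ∧ (∀ m x y, R m x y → R' m x y) ∧
      ∃ t, ∀ i, run R' t (a i) (b i) := by
  by_cases hc : ∃ t, ∀ i, run R t (a i) (b i)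
  · exact ⟨R, hR, fun _ _ _ h => h, hc⟩
  have hno : ∀ t, ¬ ∀ i, run R t (a i) (b i) := fun t h => hc ⟨t, h⟩
  have hno' : ∀ t, ¬ ∀ i, run R t (b i) (a i) :=
    fun t h => hno (winv t) fun i => run_winv hR.sym (h i)
  -- a new generator
  obtain ⟨s, hs⟩ := ((hR.fin.image (fun p : (ℕ × Bool) × M × M => p.1.1)).exists_notMem)
  have hl : ∀ m : ℕ × Bool, m.1 = s → ∀ x y, ¬ R m x y := by
    rintro m rfl x y h
    exact hs ⟨(m, x, y), h, rfl⟩
  set l : ℕ × Bool := (s, true) with hldef
  have hl' : ∀ m : ℕ × Bool, m.1 = l.1 → ∀ x y, ¬ R m x y := hl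
  refine ⟨addGen R l a b, ⟨?_, ?_, ?_, ?_, ?_⟩, fun m x y h => Or.inl h, [l],
    fun i => (run_single _ _ _).mpr (Or.inr (Or.inl ⟨rfl, i, rfl, rfl⟩))⟩
  · rintro m x y (h | ⟨rfl, i, h1, h2⟩ | ⟨rfl, i, h1, h2⟩)
    · exact Or.inl (hR.sym _ _ _ h)
    · exact Or.inr (Or.inr ⟨rfl, i, h2, h1⟩)
    · exact Or.inr (Or.inl ⟨inv_inv _, i, h2, h1⟩)
  · rintro m x y y' (h | ⟨rfl, i, h1, h2⟩ | ⟨rfl, i, h1, h2⟩)
      (h' | ⟨h0', i', h1', h2'⟩ | ⟨h0', i', h1', h2'⟩)
    · exact hR.fn _ _ _ _ h h'
    · exact absurd h (hl' _ (by rw [h0']) _ _)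
    · exact absurd h (hl' _ (by rw [h0']; rfl) _ _)
    · exact absurd h' (hl' _ rfl _ _)
    · rw [h2, h2', ha (h1.symm.trans h1')]
    · exact absurd h0'.symm (inv_ne _)
    · exact absurd h' (hl' (inv l) rfl _ _)
    · exact absurd h0' (inv_ne _)
    · rw [h2, h2', hb (h1.symm.trans h1')]
  · refine ((hR.fin.union (Set.finite_range fun i => (l, a i, b i))).union
      (Set.finite_range fun i => (inv l, b i, a i))).subset ?_
    rintro ⟨m, x, y⟩ (h | ⟨h0, i, h1, h2⟩ | ⟨h0, i, h1, h2⟩)
    · exact Or.inl (Or.inl h)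
    · simp only at h0 h1 h2
      subst h0 h1 h2
      exact Or.inl (Or.inr ⟨i, rfl⟩)
    · simp only at h0 h1 h2
      subst h0 h1 h2
      exact Or.inr ⟨i, rfl⟩
  · intro m n r x y hxy
    by_cases hm : m.1 = s
    · have hnot : ∀ x y, ¬ R m x y := hl m hm
      rcases eq_or_inv (l := l) hm with rfl | rfl
      · have : ∀ i, ∃ j, x i = a j ∧ y i = b j := by
          intro i
          rcases hxy i with h | ⟨_, h⟩ | ⟨h, _⟩
          · exact absurd h (hnot _ _)
          · exact h
          · exact absurd h.symm (inv_ne _)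
        choose j h1 h2 using this
        rw [show x = a ∘ j from funext h1, show y = b ∘ j from funext h2]
        exact hab n r j
      · have : ∀ i, ∃ j, x i = b j ∧ y i = a j := by
          intro i
          rcases hxy i with h | ⟨h, _⟩ | ⟨_, h⟩
          · exact absurd h (hnot _ _)
          · exact absurd h (inv_ne _)
          · exact h
        choose j h1 h2 using this
        rw [show x = b ∘ j from funext h1, show y = a ∘ j from funext h2]
        exact (hab n r j).symm
    · refine hR.pres m n r x y fun i => ?_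
      rcases hxy i with h | ⟨h, _⟩ | ⟨h, _⟩
      · exact h
      · exact absurd (congrArg Prod.fst h) hm
      · exact absurd (congrArg Prod.fst h) hm
  · intro t hred hne c hcinj hrun
    by_cases hex : ∃ m ∈ t, m.1 = s
    · obtain ⟨t₁, m, t₂, rfl, hm, ht₂⟩ := exists_last s t hex
      rcases eq_or_inv (l := l) hm with rfl | rfl
      · exact key_step hrig hR hl' hb hab hno' ht₂ hred hcinj hrun
      · rw [← addGen_symm] at hrun
        refine key_step hrig hR (l := inv l) hl' ha (fun n r x => (hab n r x).symm) hno ht₂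
          hred hcinj hrun
    · push Not at hex
      refine hR.star t hred hne c hcinj fun i => run_mono ?_ (hrun i)
      rintro m hm x y (h | ⟨h, _⟩ | ⟨h, _⟩)
      · exact h
      · exact absurd (congrArg Prod.fst h) (hex m hm)
      · exact absurd (congrArg Prod.fst h) (hex m hm)

end States

/-! ### The limit -/

section Limit

variable {L : FirstOrder.Language.{u, v}} {M : Type w} [L.Structure M]

/-- The tasks: connect two tuples, or extend the domain of a letter. -/
abbrev Task (M : Type w) (k : ℕ) : Type w := ((Fin k → M) × (Fin k → M)) ⊕ ((ℕ × Bool) × M)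

variable (L) in
/-- The task is accomplished. -/
def Done {k : ℕ} (R : ℕ × Bool → M → M → Prop) : Task M k → Prop
  | Sum.inl p => Function.Injective p.1 → Function.Injective p.2 → SameType L p.1 p.2 →
      ∃ t, ∀ i, run R t (p.1 i) (p.2 i)
  | Sum.inr p => ∃ y, R p.1 p.2 y

lemma exists_step [L.IsRelational] {k : ℕ} (hF : IsFraisse L M) (hrig : RigidSubsets L M k)
    (R : {R : ℕ × Bool → M → M → Prop // Good L k R}) (T : Task M k) :
    ∃ R' : {R : ℕ × Bool → M → M → Prop // Good L k R},
      (∀ m x y, R.1 m x y → R'.1 m x y) ∧ Done L R'.1 T := by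
  rcases T with ⟨a, b⟩ | ⟨l, c⟩
  · by_cases h : Function.Injective a ∧ Function.Injective b ∧ SameType L a b
    · obtain ⟨R', h1, h2, h3⟩ := exists_connect hrig R.2 h.1 h.2.1 h.2.2
      exact ⟨⟨R', h1⟩, h2, fun _ _ _ => h3⟩
    · exact ⟨R, fun _ _ _ h => h, fun h1 h2 h3 => absurd ⟨h1, h2, h3⟩ h⟩
  · obtain ⟨R', h1, h2, h3⟩ := exists_extend hF.ultra hF.amalg R.2 l c
    exact ⟨⟨R', h1⟩, h2, h3⟩

lemma good_empty {k : ℕ} (hk : 1 ≤ k) : Good L k (fun (_ : ℕ × Bool) (_ _ : M) => False) where
  sym _ _ _ h := h
  fn _ _ _ _ h := h.elim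
  fin := by simp
  pres l n r x y h := by
    rcases Nat.eq_zero_or_pos n with rfl | hn
    · rw [Subsingleton.elim x y]
    · exact (h ⟨0, hn⟩).elim
  star := by
    intro t _ hne c _ hrun
    obtain ⟨m, t', rfl⟩ := List.exists_cons_of_ne_nil hne
    obtain ⟨_, _, h⟩ := hrun ⟨0, hk⟩
    exact h

theorem main [L.IsRelational] {k : ℕ} (hk : 1 ≤ k) (hF : IsFraisse L M)
    (hrig : RigidSubsets L M k) : AdmitsSharp L M k := by
  have := hF.countable
  have := hF.infinite
  have : Nonempty (Task M k) := ⟨Sum.inr ((0, true), Classical.arbitrary M)⟩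
  obtain ⟨task, htask⟩ := exists_surjective_nat (Task M k)
  choose next hnext hdone using fun R T => exists_step (L := L) (M := M) (k := k) hF hrig R T
  let S : ℕ → {R : ℕ × Bool → M → M → Prop // Good L k R} :=
    fun n => Nat.rec ⟨_, good_empty hk⟩ (fun n R => next R (task n)) n
  have hS : ∀ n, S (n + 1) = next (S n) (task n) := fun n => rfl
  have hmono1 : ∀ n m x y, (S n).1 m x y → (S (n + 1)).1 m x y := by
    intro n m x y h
    rw [hS]
    exact hnext _ _ _ _ _ h
  have hmono : ∀ n n', n ≤ n' → ∀ m x y, (S n).1 m x y → (S n').1 m x y := by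
    intro n n' hn
    induction hn with
    | refl => exact fun _ _ _ h => h
    | step _ ih => exact fun m x y h => hmono1 _ _ _ _ (ih m x y h)
  have hdone' : ∀ T : Task M k, ∃ n, Done L (S n).1 T := by
    intro T
    obtain ⟨n, rfl⟩ := htask T
    exact ⟨n + 1, by rw [hS]; exact hdone _ _⟩
  -- the limit relation
  set Q : ℕ × Bool → M → M → Prop := fun m x y => ∃ n, (S n).1 m x y with hQ
  have hQsym : ∀ m x y, Q m x y → Q (inv m) y x := fun m x y ⟨n, h⟩ => ⟨n, (S n).2.sym _ _ _ h⟩
  have hQfn : ∀ m x y y', Q m x y → Q m x y' → y = y' := by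
    rintro m x y y' ⟨n, h⟩ ⟨n', h'⟩
    exact (S (max n n')).2.fn m x y y' (hmono _ _ (le_max_left _ _) _ _ _ h)
      (hmono _ _ (le_max_right _ _) _ _ _ h')
  have hQtot : ∀ m x, ∃ y, Q m x y := by
    intro m x
    obtain ⟨n, y, h⟩ := hdone' (Sum.inr (m, x))
    exact ⟨y, n, h⟩
  have hrunQ : ∀ t x y, run Q t x y → ∃ n, run (S n).1 t x y := by
    intro t
    induction t with
    | nil => exact fun x y h => ⟨0, h⟩
    | cons l t ih =>
      rintro x y ⟨z, h1, n', h2⟩
      obtain ⟨n, h3⟩ := ih x z h1
      exact ⟨max n n', z, run_mono (fun m _ => hmono _ _ (le_max_left _ _) m) h3,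
        hmono _ _ (le_max_right _ _) _ _ _ h2⟩
  choose F hFQ using hQtot
  -- the permutations
  let σ : ℕ → Equiv.Perm M := fun s =>
    { toFun := F (s, true)
      invFun := F (s, false)
      left_inv := fun x => hQfn (s, false) _ _ _ (hFQ _ _) (hQsym (s, true) _ _ (hFQ _ _))
      right_inv := fun x => hQfn (s, true) _ _ _ (hFQ _ _) (hQsym (s, false) _ _ (hFQ _ _)) }
  have hσ : ∀ (l : ℕ × Bool) x, (cond l.2 (σ l.1) (σ l.1)⁻¹ : Equiv.Perm M) x = F l x := by
    rintro ⟨s, b⟩ x
    cases b <;> rfl
  let Φ : FreeGroup ℕ →* Equiv.Perm M := FreeGroup.lift σ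
  have hΦ : ∀ (t : List (ℕ × Bool)) x, run Q t x (Φ (FreeGroup.mk t) x) := by
    intro t
    induction t with
    | nil => intro x; exact rfl
    | cons l t ih =>
      intro x
      refine ⟨_, ih x, ?_⟩
      have : Φ (FreeGroup.mk (l :: t)) x = F l (Φ (FreeGroup.mk t) x) := by
        simp only [Φ, FreeGroup.lift_mk, List.map_cons, List.prod_cons, Equiv.Perm.mul_apply]
        exact hσ l _
      rw [this]
      exact hFQ _ _
  have hΦ' : ∀ (t : List (ℕ × Bool)) x y, run Q t x y → Φ (FreeGroup.mk t) x = y :=
    fun t x y h => run_fn hQfn (hΦ t x) h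
  refine ⟨FreeGroup ℕ, inferInstance, MulAction.compHom M Φ, ?_, ?_⟩
  · intro g n r x
    show RelMap r (fun i => Φ g (x i)) ↔ RelMap r x
    have hg : ∀ i, ∃ n, run (S n).1 g.toWord (x i) (Φ g (x i)) := by
      intro i
      have := hΦ g.toWord (x i)
      rw [FreeGroup.mk_toWord] at this
      exact hrunQ _ _ _ this
    choose N hN using hg
    have hall : ∀ i, run (S (Finset.univ.sup N)).1 g.toWord (x i) (Φ g (x i)) := fun i =>
      run_mono (fun m _ => hmono _ _ (Finset.le_sup (Finset.mem_univ i)) m) (hN i)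
    exact (run_pres (S (Finset.univ.sup N)).2.pres g.toWord n r _ _ hall).symm
  · intro a b ha hb hab
    obtain ⟨n, hn⟩ := hdone' (Sum.inl (a, b))
    obtain ⟨t, ht⟩ := hn ha hb hab
    have ht' : ∀ i, Φ (FreeGroup.mk t) (a i) = b i := fun i =>
      hΦ' _ _ _ (run_mono (fun m _ x y h => ⟨n, h⟩) (ht i))
    refine ⟨FreeGroup.mk t, fun i => ht' i, ?_⟩
    intro g hg
    by_contra hne
    have hg' : ∀ i, Φ g (a i) = b i := hg
    set u := (FreeGroup.mk t)⁻¹ * g with hu
    have hu1 : u ≠ 1 := fun h => hne (by rw [hu, inv_mul_eq_one] at h; exact h.symm)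
    have hfix : ∀ i, Φ u (a i) = a i := by
      intro i
      rw [hu, map_mul, Equiv.Perm.mul_apply, hg' i, map_inv, ← ht' i]
      exact (Φ (FreeGroup.mk t)).symm_apply_apply _
    have hw : u.toWord ≠ [] := fun h => hu1 (FreeGroup.toWord_eq_nil_iff.mp h)
    have hrun : ∀ i, ∃ n, run (S n).1 u.toWord (a i) (a i) := by
      intro i
      have := hΦ u.toWord (a i)
      rw [FreeGroup.mk_toWord, hfix i] at this
      exact hrunQ _ _ _ this
    choose N hN using hrun
    exact (S (Finset.univ.sup N)).2.star u.toWord FreeGroup.isReduced_toWord hw a ha fun i =>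
      run_mono (fun m _ => hmono _ _ (Finset.le_sup (Finset.mem_univ i)) m) (hN i)

end Limit

/-- For every `k ≥ 1`, every Fraïssé structure (in a relational language) with rigid `k`-subsets
admits a structurally sharply `k`-transitive action. -/
theorem result (L : FirstOrder.Language.{u, v}) [L.IsRelational] (M : Type w) [L.Structure M]
    (k : ℕ) (hk : 1 ≤ k) (hF : IsFraisse L M) (hrig : RigidSubsets L M k) : AdmitsSharp L M k :=
  main hk hF hrig

end Pool.Agent.Results.MP_301b8f_al.RigidSharp
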